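import Mathlib

/-!
Project TP (MP_0f1375_an): the top derivative `k = n - 1`, all `1 ≤ p < ∞`, all nodes.
Statements of the pieces.
-/

set_option autoImplicit false

namespace Pool.Agent.K1H27.TP

open MeasureTheory

/-- `χ_τ(y) = (y - τ)_+² / 2` -/
noncomputable def chi (τ y : ℝ) : ℝ := (max (y - τ) 0) ^ 2 / 2

/-- mass of the positive part -/
noncomputable def pm (ψ : ℝ → ℝ) (u v : ℝ) : ℝ := ∫ s in u..v, max (ψ s) 0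

/-- mass of the negative part -/
noncomputable def nm (ψ : ℝ → ℝ) (u v : ℝ) : ℝ := ∫ s in u..v, max (-ψ s) 0

/-- largest area below a path with the given masses -/
noncomputable def U (ψ : ℝ → ℝ) (u v : ℝ) : ℝ :=
  pm ψ u v * (v - u) - (pm ψ u v ^ 2 + nm ψ u v ^ 2) / 2

/-- Piece AREA (bathtub). -/
def S_AREA : Prop := ∀ (u v : ℝ) (ψ : ℝ → ℝ), u ≤ v → Measurable ψ → (∀ x, |ψ x| ≤ 1) →
  ∫ t in u..v, (∫ s in u..t, ψ s) ≤ U ψ u v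

/-- Piece KL: a `1`-Lipschitz function of mean zero, integrated over mass `A`. -/
def S_KL : Prop := ∀ (u v : ℝ) (h η : ℝ → ℝ), u < v →
  (∀ x ∈ Set.Icc u v, ∀ y ∈ Set.Icc u v, |h x - h y| ≤ |x - y|) → Continuous h →
  ∫ x in u..v, h x = 0 → Measurable η → (∀ x, 0 ≤ η x) → (∀ x, η x ≤ 1) →
  ∫ x in u..v, η x * h x ≤ (∫ x in u..v, η x) * (v - u - ∫ x in u..v, η x) / 2

/-- Piece LINE (from KL): path and a curve below the chord of the path. -/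
def S_LINE : Prop := ∀ (u v : ℝ) (ψ K : ℝ → ℝ), u ≤ v → Measurable ψ → (∀ x, |ψ x| ≤ 1) →
  ContinuousOn K (Set.Icc u v) →
  (∀ t ∈ Set.Icc u v, K t * (v - u) ≤ (t - u) * ∫ s in u..v, ψ s) →
  ∫ t in u..v, |(∫ s in u..t, ψ s) - K t| ≤ U ψ u v - ∫ t in u..v, K t

/-- Piece LIN2 (from AREA and LINE): the same with a second interval where the path is above. -/
def S_LIN2 : Prop := ∀ (u v z : ℝ) (ψ K : ℝ → ℝ), u ≤ v → v ≤ z → Measurable ψ →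
  (∀ x, |ψ x| ≤ 1) → ContinuousOn K (Set.Icc u z) →
  (∀ t ∈ Set.Icc u v, K t * (v - u) ≤ (t - u) * ∫ s in u..v, ψ s) →
  (∀ t ∈ Set.Icc v z, K t ≤ ∫ s in u..t, ψ s) →
  ∫ t in u..z, |(∫ s in u..t, ψ s) - K t| ≤ U ψ u z - ∫ t in u..z, K t

/-- Piece LIN2R (from LIN2 by reflection `t ↦ u + z - t`). -/
def S_LIN2R : Prop := ∀ (u v z : ℝ) (ψ K : ℝ → ℝ), u ≤ v → v ≤ z → Measurable ψ →
  (∀ x, |ψ x| ≤ 1) → ContinuousOn K (Set.Icc u z) →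
  (∀ t ∈ Set.Icc v z, K t * (z - v) ≤ (z - t) * ∫ s in v..z, ψ s) →
  (∀ t ∈ Set.Icc u v, K t ≤ ∫ s in t..z, ψ s) →
  ∫ t in u..z, |(∫ s in t..z, ψ s) - K t| ≤ U ψ u z - ∫ t in u..z, K t

/-- Piece ALG. -/
def S_ALG : Prop := ∀ (l1 l2 p1 p2 f T A B C D τ : ℝ), 0 ≤ l1 → 0 ≤ l2 → 0 ≤ p1 → 0 ≤ p2 →
  0 ≤ f → f ≤ 1 → 0 ≤ T → 0 ≤ A → 0 ≤ B → 0 ≤ C → 0 ≤ D → 0 ≤ τ → A + B ≤ l1 → C + D ≤ l2 →
  A - B = f * T → C - D = (1 - f) * T →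
  (A * l1 - (A ^ 2 + B ^ 2) / 2) + (C * l2 - (C ^ 2 + D ^ 2) / 2) - T * (p1 + p2)
    - τ * (A + B + C + D) ≤ chi τ (l1 - p1 + p2) + chi τ (l2 + p1 - p2)

/-- Piece CHORD: the distribution function of a unimodal density. -/
def S_CHORD : Prop := ∀ (a b : ℝ) (M : ℝ → ℝ), a < b → Continuous M →
  (∀ x ∈ Set.Icc a b, 0 ≤ M x) →
  (∀ s1 s2 s3, a ≤ s1 → s1 < s2 → s2 < s3 → s3 ≤ b → min (M s1) (M s3) ≤ M s2) →
  ∃ c ∈ Set.Icc a b,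
    (∀ α ∈ Set.Icc a c, ∀ t ∈ Set.Icc a α,
      (∫ s in a..t, M s) * (α - a) ≤ (t - a) * ∫ s in a..α, M s) ∧
    (∀ β ∈ Set.Icc c b, ∀ t ∈ Set.Icc β b,
      (∫ s in t..b, M s) * (b - β) ≤ (b - t) * ∫ s in β..b, M s)

/-- Piece DUAL (from LIN2, LIN2R, ALG, CHORD). -/
def S_DUAL : Prop := ∀ (a b τ : ℝ) (M ψ : ℝ → ℝ), a < b → 0 ≤ τ → Continuous M →
  (∀ x ∈ Set.Icc a b, 0 ≤ M x) → ∫ x in a..b, M x = 1 →
  (∀ s1 s2 s3, a ≤ s1 → s1 < s2 → s2 < s3 → s3 ≤ b → min (M s1) (M s3) ≤ M s2) →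
  Measurable ψ → (∀ x, |ψ x| ≤ 1) → 0 ≤ ∫ x in a..b, ψ x →
  ∫ t in a..b, |(∫ x in a..b, ψ x) * (∫ x in a..t, M x) - ∫ x in a..t, ψ x|
    - τ * ∫ x in a..b, |ψ x| ≤
    chi τ ((∫ x in a..b, M x * x) - a) + chi τ (b - ∫ x in a..b, M x * x)

/-- Piece IBP: integration by parts for Lipschitz functions. -/
def S_IBP : Prop := ∀ (a b : ℝ) (M ψ g : ℝ → ℝ), a < b → Continuous M → Continuous g →
  (∀ x ∈ Set.Icc a b, ∀ y ∈ Set.Icc a b, |g x - g y| ≤ |x - y|) → ∫ x in a..b, M x = 1 →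
  ∫ x in a..b, M x * g x = 0 → Measurable ψ → (∀ x, |ψ x| ≤ 1) →
  ∫ x in a..b, ψ x * g x ≤
    ∫ t in a..b, |(∫ x in a..b, ψ x) * (∫ x in a..t, M x) - ∫ x in a..t, ψ x|

/-- Piece HINGE (from DUAL and IBP). -/
def S_HINGE : Prop := ∀ (a b τ : ℝ) (M g : ℝ → ℝ), a < b → 0 ≤ τ → Continuous M →
  Continuous g → (∀ x ∈ Set.Icc a b, 0 ≤ M x) → ∫ x in a..b, M x = 1 →
  (∀ s1 s2 s3, a ≤ s1 → s1 < s2 → s2 < s3 → s3 ≤ b → min (M s1) (M s3) ≤ M s2) →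
  (∀ x ∈ Set.Icc a b, ∀ y ∈ Set.Icc a b, |g x - g y| ≤ |x - y|) →
  ∫ x in a..b, M x * g x = 0 →
  ∫ x in a..b, max (|g x| - τ) 0 ≤ ∫ x in a..b, max (|x - ∫ s in a..b, M s * s| - τ) 0

end Pool.Agent.K1H27.TP
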