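import Mathlib
import Pool.Agent.K1H27.TP.Stm
import Pool.Agent.K1H27.TP.Final
import Pool.Agent.K1H97.TP.Area
import Pool.Agent.K1H59.TP.Kl
import Pool.Agent.K1H90.TP.Line
import Pool.Agent.K1H31.TP.Lin2
import Pool.Agent.K1H67.TP.Lin2r
import Pool.Agent.K1H75.TP.Alg
import Pool.Agent.K1H68.TP.Chord
import Pool.Agent.K1H33.TP.Dual
import Pool.Agent.K1H59.TP.Ibp
import Pool.Agent.K1H52.TP.HINGE

/-!
Project TP (MP_0f1375_an): assembly of the hinge inequality from the pieces.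
-/

set_option autoImplicit false

namespace Pool.Agent.K1H27.TP

theorem t_all_LINE : S_LINE := Pool.Agent.K1H90.TP.t_LINE Pool.Agent.K1H59.TP.t_KL

theorem t_all_LIN2 : S_LIN2 := Pool.Agent.K1H31.TP.t_LIN2 Pool.Agent.K1H97.TP.t_AREA t_all_LINE

theorem t_all_LIN2R : S_LIN2R := Pool.Agent.K1H67.TP.t_LIN2R t_all_LIN2

theorem t_all_DUAL : Pool.Agent.K1H52.TP.S_DUAL' :=
  Pool.Agent.K1H33.TP.t_DUAL t_all_LIN2 t_all_LIN2R Pool.Agent.K1H75.TP.t_ALG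
    Pool.Agent.K1H68.TP.t_CHORD

theorem t_all_HINGE : S_HINGE :=
  Pool.Agent.K1H52.TP.t_HINGE t_all_DUAL Pool.Agent.K1H59.TP.t_IBP

end Pool.Agent.K1H27.TP
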